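import Mathlib
import Pool.Agent.Y822.F.Out

set_option autoImplicit false

/-!
# Primes `n` with almost prime `a n + 1` for almost all sets of multipliers

From any finite set of multipliers of polynomial size choose `s = k + 1` of them. For all but few of the
admissible choices the expected number of primes `n ≤ x` makes all the numbers `a n + 1` free of prime factors
below `x ^ w`, for any `w < 1/4`, whatever the number `s` of the multipliers.
-/

namespace Pool.Agent.Results.MP_bca3e5_nt.AlmostAllDilates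

open Finset Filter

/-- The set `T` of positive integers is admissible in the sense of the problem. -/
def Admissible (T : Finset ℕ) : Prop :=
  ∀ p : ℕ, p.Prime → ¬ ∀ n : ℕ, 1 ≤ n → p ∣ n * ∏ a ∈ T, (a * n + 1)

open Classical in
/-- The number of the primes `n ≤ x` such that every `a n + 1`, `a ∈ T`, has at most `r` prime factors,
counted with multiplicity, all of them at least `x ^ w`. -/
noncomputable def count (w : ℝ) (r x : ℕ) (T : Finset ℕ) : ℕ :=
  ((Icc 1 x).filter (fun n => n.Prime ∧ ∀ a ∈ T, (a * n + 1).primeFactorsList.length ≤ r ∧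
    ∀ q : ℕ, q.Prime → q ∣ a * n + 1 → (x : ℝ) ^ w ≤ q)).card

open Pool.Agent.Y822 Pool.Agent.Y822.F

/-- the form with constant term one -/
def fm (a : ℕ) : ℕ × ℕ := (a, 1)

lemma fm_inj : Function.Injective fm := fun _ _ h => congrArg Prod.fst h

lemma mem_img {T : Finset ℕ} {f : ℕ × ℕ} : f ∈ T.image fm ↔ ∃ a ∈ T, fm a = f := mem_image

lemma prod_img (N : ℕ) (w : ℝ) (T : Finset ℕ) (n : ℕ) :
    ∏ f ∈ T.image fm, gw N w (lf f n) = ∏ a ∈ T, gw N w (a * n + 1) := by
  rw [prod_image fun a _ b _ h => fm_inj h]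
  rfl

open Classical in
/-- Let `C > 0` and `0 < w < 1/4`, and let `r` be a natural number with `r + 1 > (C + 1) / w` (for example
`r = 4`, if `C < 1/4` and `w` is close to `1/4`). For every `k` there are `c > 0` and `B` such that for all
large `x` and EVERY finite set `A` of positive integers `a ≤ x ^ C`: for all but at most
`(|A| choose k) log(x) ^ B` of the admissible sets `T` of `s = k + 1` elements of `A` there are at least
`c x / log(x) ^ (s + 1)` primes `n ≤ x` such that all the numbers `a n + 1`, `a ∈ T`, have at most `r` prime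
factors, all of them at least `x ^ w`. -/
theorem result (k : ℕ) (C w : ℝ) (hC : 0 < C) (hw : 0 < w) (hw4 : w < 1 / 4) (r : ℕ)
    (hr : C + 1 < w * (r + 1)) : ∃ c : ℝ, 0 < c ∧ ∃ B x₀ : ℕ, ∀ x : ℕ, x₀ ≤ x → ∀ A : Finset ℕ,
      (∀ a ∈ A, 1 ≤ a ∧ (a : ℝ) ≤ (x : ℝ) ^ C) →
      (((A.powersetCard (k + 1)).filter (fun T => Admissible T ∧
        (count w r x T : ℝ) < c * (x / Real.log x ^ (k + 2)))).card : ℝ) ≤
        A.card.choose k * Real.log x ^ B := by
  obtain ⟨w', hw'⟩ : ∃ w' : ℝ, w' = max w (1 / 12) := ⟨_, rfl⟩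
  have hww : w ≤ w' := by rw [hw']; exact le_max_left _ _
  have h12 : 1 / 12 ≤ w' := by rw [hw']; exact le_max_right _ _
  have h4 : w' < 1 / 4 := by rw [hw']; exact max_lt hw4 (by norm_num)
  obtain ⟨K, hK⟩ : ∃ K : ℕ, K = ⌈C⌉₊ := ⟨_, rfl⟩
  obtain ⟨cb, hcb, hb1⟩ := baseP k
  obtain ⟨c, hc, B, hfin⟩ := final w' h12 h4 K k 1 eP eP_bd
    (fun H => ∀ p, p.Prime → nuP H p < p) ⟨cb, hcb, hb1⟩
  have e1 := ev_logN (ev_pow_exp 0 (w' * (r + 1) - (C + 1)) 2 (by
    have : w * (r + 1) ≤ w' * (r + 1) := mul_le_mul_of_nonneg_right hww (by positivity)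
    linarith))
  obtain ⟨x₀, hx₀⟩ := eventually_atTop.1 (hfin.and e1)
  refine ⟨c, hc, B, max x₀ 3, fun x hx A hA => ?_⟩
  obtain ⟨hx1, hx2⟩ := hx₀ x ((le_max_left _ _).trans hx)
  have hx3 : 3 ≤ x := (le_max_right _ _).trans hx
  have hx0 : (0 : ℝ) < x := by positivity
  have hxr : (1 : ℝ) ≤ x := by exact_mod_cast (by omega : 1 ≤ x)
  have hL0 : 0 ≤ Real.log x := Real.log_nonneg hxr
  have hx5 : (1 : ℝ) ≤ (x : ℝ) ^ C := Real.one_le_rpow hxr hC.le
  have h5 : (x : ℝ) ^ C ≤ ((x ^ K : ℕ) : ℝ) := by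
    push_cast
    rw [← Real.rpow_natCast, hK]
    exact Real.rpow_le_rpow_of_exponent_le hxr (Nat.le_ceil C)
  have hHt : ∀ f ∈ A.image fm, Ht (x ^ K) f := by
    intro f hf
    obtain ⟨a, ha, rfl⟩ := mem_img.1 hf
    obtain ⟨g1, g2⟩ := hA a ha
    refine ⟨?_, g1, by exact_mod_cast g2.trans h5, by exact_mod_cast hx5.trans h5⟩
    unfold Prim fm
    exact Nat.coprime_one_right a
  set Bad := (A.powersetCard (k + 1)).filter (fun T => Admissible T ∧
        (count w r x T : ℝ) < c * (x / Real.log x ^ (k + 2))) with hBad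
  have h6 := hx1 (A.image fm) hHt (Bad.image (fun T => T.image fm)) (fun H hH => by
    rw [mem_image] at hH
    obtain ⟨T, hT, rfl⟩ := hH
    rw [hBad, mem_filter, mem_powersetCard] at hT
    obtain ⟨⟨b1, b2⟩, b3, b4⟩ := hT
    refine ⟨?_, fun p hp => nuP_lt hp.pos ?_, ?_⟩
    · rw [mem_powersetCard]
      exact ⟨image_subset_image b1, by rw [card_image_of_injective _ fm_inj, b2]⟩
    · have h7 := b3 p hp
      push Not at h7
      obtain ⟨n, hn1, hn2⟩ := h7
      refine ⟨n, fun h => hn2 (h.mul_right _), fun f hf hd => ?_⟩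
      obtain ⟨a, ha, rfl⟩ := mem_img.1 hf
      exact hn2 (Dvd.dvd.mul_left (hd.trans (dvd_prod_of_mem (fun a => a * n + 1) ha)) _)
    · rw [show 1 + k + 1 = k + 2 by ring]
      refine lt_of_le_of_lt ?_ b4
      unfold count
      rw [card_filter]
      push_cast
      refine sum_le_sum fun n hn => ?_
      rw [mem_Icc] at hn
      have h8 : ∏ f ∈ T.image fm, gw x w' (lf f n) ≤ if (∀ a ∈ T, (a * n + 1).primeFactorsList.length ≤ r ∧
          ∀ q : ℕ, q.Prime → q ∣ a * n + 1 → (x : ℝ) ^ w ≤ q) then 1 else 0 := by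
        refine prod_gw x w' (T.image fm) n _ (fun h => ?_)
        intro a ha
        have hq : ∀ q : ℕ, q.Prime → q ∣ a * n + 1 → (x : ℝ) ^ w' ≤ q := fun q hq hqd =>
          h (fm a) (mem_img.2 ⟨a, ha, rfl⟩) q hq hqd
        obtain ⟨g1, g2⟩ := hA a (b1 ha)
        refine ⟨len_le (N := x) (w := w') (by omega) (by linarith) (by omega) ?_ hq, fun q hq' hqd => ?_⟩
        · have hn2 : (n : ℝ) ≤ x := by exact_mod_cast hn.2
          have e2 : (x : ℝ) ^ (w' * (r + 1)) = (x : ℝ) ^ (C + 1) * Real.exp ((w' * (r + 1) - (C + 1)) * Real.log x) := by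
            rw [Real.rpow_def_of_pos hx0, Real.rpow_def_of_pos hx0, ← Real.exp_add]
            congr 1
            ring
          rw [e2]
          rw [pow_zero, mul_one] at hx2
          have e3 : (x : ℝ) ^ (C + 1) = (x : ℝ) ^ C * x := by rw [Real.rpow_add hx0, Real.rpow_one]
          push_cast
          calc (a : ℝ) * n + 1 ≤ (x : ℝ) ^ C * x + (x : ℝ) ^ C := by gcongr
            _ < (x : ℝ) ^ C * x * 2 := by
                have : (x : ℝ) ^ C * 1 < (x : ℝ) ^ C * x := mul_lt_mul_of_pos_left (by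
                  have : (3 : ℝ) ≤ x := by exact_mod_cast hx3
                  linarith) (by linarith)
                linarith
            _ ≤ (x : ℝ) ^ C * x * Real.exp ((w' * (r + 1) - (C + 1)) * Real.log x) := by gcongr
            _ = _ := by rw [e3]
        · exact le_trans (Real.rpow_le_rpow_of_exponent_le hxr hww) (hq q hq' hqd)
      by_cases hp : n.Prime
      · have e4 : eP n = 1 := by unfold eP; rw [if_pos hp]
        rw [e4, one_mul]
        refine h8.trans (le_of_eq ?_)
        simp only [hp, true_and]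
      · have e4 : eP n = 0 := by unfold eP; rw [if_neg hp]
        rw [e4, zero_mul]
        split_ifs <;> norm_num)
  rw [card_image_of_injective _ fm_inj, card_image_of_injective _ (image_injective fm_inj)] at h6
  exact h6

end Pool.Agent.Results.MP_bca3e5_nt.AlmostAllDilates
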