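import Pool.Agent.TH977.PW.Inst
import Pool.Agent.Y677.RSZ.FinEx
import Pool.Agent.Y677.KP.Apply

set_option autoImplicit false

/-!
# Narrow arithmetic progressions of primes `n` with all `a_i n + 1` prime or almost prime

Let `R a r` be the set of the `n` for which all prime factors of `n` and of all `a_i n + 1` are larger
than `n ^ (1 / r)`; it contains all primes `n` for which all `a_i n + 1` are prime. For an ARBITRARY
subset `A` of `R a r`, in every short interval all but a small proportion of the expected number of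
elements of `A` are terms of `l`-term arithmetic progressions inside `A` with difference at most
`(log X) ^ B`. For a single form `a n + 1` (`a` even) progressions of primes `p` for which `a p + 1` has
at most three prime factors, all larger than `p ^ (1 / 5)`.
-/

namespace Pool.Agent.Results.MP_bca3e5_nt.NarrowProgressions

open Finset Filter
open Pool.Agent.TH977.PW (N)
open Pool.Agent.Y677.RSZ (InProg Outside)

/-- All prime factors of `n` and of all `a i * n + 1` are larger than `n ^ (1 / r)`. -/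
def R {s : ℕ} (a : Fin s → ℕ) (r : ℕ) : Set ℕ :=
  {n | (∀ p : ℕ, p.Prime → p ∣ n → (n : ℝ) ^ (1 / (r : ℝ)) < (p : ℝ)) ∧
    ∀ i, ∀ p : ℕ, p.Prime → p ∣ a i * n + 1 → (n : ℝ) ^ (1 / (r : ℝ)) < (p : ℝ)}

/-- The primes `n` of `R a r` for which all `a i * n + 1` have at most `r` prime factors. -/
def P {s : ℕ} (a : Fin s → ℕ) (r : ℕ) : Set ℕ :=
  {n | n ∈ R a r ∧ n.Prime ∧ ∀ i, (a i * n + 1).primeFactorsList.length ≤ r}

/-- The primes `p` for which `a p + 1` has at most three prime factors, all larger than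
`p ^ (1 / 5)`. -/
def T (a : ℕ) : Set ℕ :=
  {p | p.Prime ∧ (∀ q : ℕ, q.Prime → q ∣ a * p + 1 → (p : ℝ) ^ (1 / (5 : ℝ)) < (q : ℝ)) ∧
    (a * p + 1).primeFactorsList.length ≤ 3}

theorem many (s : ℕ) (a : Fin s → ℕ) (ha : ∀ i, 0 < a i) (hinj : Function.Injective a)
    (hadm : ∀ p : ℕ, p.Prime → ∃ n : ℕ, 1 ≤ n ∧ ¬ p ∣ n * ∏ i, (a i * n + 1))
    (θ : ℝ) (hθ : 0 < θ) (hθ1 : θ ≤ 1) :
    ∃ r₀ : ℕ, 2 ≤ r₀ ∧ ∀ r : ℕ, r₀ ≤ r →
      (∀ n : ℕ, n.Prime → (∀ i, (a i * n + 1).Prime) → n ∈ R a r) ∧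
      (∃ κ : ℝ, 0 < κ ∧ ∀ᶠ X : ℕ in atTop, κ * X / Real.log X ^ (s + 1) ≤
          N (P a r) X (2 * X)) ∧
      (∀ l : ℕ, 2 ≤ l → ∀ ε : ℝ, 0 < ε → ∃ B : ℕ, ∀ᶠ X : ℕ in atTop, ∀ Y : ℕ,
        (X : ℝ) ^ θ ≤ Y → Y ≤ X → ∀ A : Set ℕ, A ⊆ R a r →
          (N (Outside A l (Real.log X ^ B) X (X + Y)) X (X + Y) : ℝ) ≤ ε * Y / Real.log X ^ (s + 1)) ∧
      ∀ l : ℕ, ∃ B : ℕ, ∀ᶠ X : ℕ in atTop, ∃ u d : ℕ, 1 ≤ d ∧ (d : ℝ) ≤ Real.log X ^ B ∧
        ∀ i < l, u + i * d ∈ P a r ∧ X < u + i * d ∧ u + i * d ≤ 2 * X := by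
  have hcast : ∀ (i : Fin s) (m : ℕ), (a i : ℤ) * (m : ℤ) + 1 = ((a i * m + 1 : ℕ) : ℤ) := by
    intro i m
    push_cast
    ring
  obtain ⟨r0, hr0, h⟩ := Pool.Agent.Y677.RSZ.narrow_lin_prime a (fun _ => 1) ha
    (fun i => isCoprime_one_right) (fun i j hij _ => hinj hij)
    (fun i hi => one_ne_zero hi.2)
    (fun p hp => by
      obtain ⟨n, -, hn⟩ := hadm p hp
      refine ⟨n, fun hd => hn (hd.mul_right _), fun i hi => hn ?_⟩
      rw [hcast, Int.natCast_dvd_natCast] at hi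
      exact (hi.trans (dvd_prod_of_mem (fun i => a i * n + 1) (mem_univ i))).mul_left _)
    (fun r => R a r)
    (P a) (s + 1)
    (by rw [Fintype.card_fin])
    (fun r m _ hm => ⟨hm.1, fun i p hp hd => hm.2 i p hp (by
      rw [hcast, Int.natCast_dvd_natCast] at hd
      exact hd)⟩)
    (fun r m h2r hm h1 h2 => ⟨⟨fun p hp hd => Pool.Agent.TH977.PW.rpow_lt_dvd r m p h2r hm hp hd,
      fun i p hp hd => h1 i p hp (by
        rw [hcast, Int.natCast_dvd_natCast]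
        exact hd)⟩, hm, fun i => by
        have := h2 i
        rw [hcast, Int.natAbs_natCast] at this
        exact this⟩) θ hθ hθ1
  refine ⟨r0, hr0, fun r hr => ⟨?_, (h r hr).1, (h r hr).2,
    Pool.Agent.Y677.RSZ.exists_prog_dyadic (fun _ hm => hm.1) ((s + 1)) hθ1 (h r hr).1 (h r hr).2⟩⟩
  intro n hn hp
  have h2r : 2 ≤ r := hr0.trans hr
  refine ⟨fun p hp' hd => Pool.Agent.TH977.PW.rpow_lt_dvd r n p h2r hn hp' hd, ?_⟩
  intro i q hq hd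
  rw [(Nat.prime_dvd_prime_iff_eq hq (hp i)).1 hd]
  refine Pool.Agent.TH977.PW.rpow_lt_of_le r n _ h2r hn.two_le ?_
  have := ha i
  nlinarith

theorem single (a : ℕ) (ha : 0 < a) (he : Even a) :
    (∀ p : ℕ, p.Prime → (a * p + 1).Prime → p ∈ T a) ∧
    (∃ κ : ℝ, 0 < κ ∧ ∀ᶠ X : ℕ in atTop, κ * X / Real.log X ^ 2 ≤ N (T a) X (2 * X)) ∧
    ∀ l : ℕ, ∃ B : ℕ, ∀ᶠ X : ℕ in atTop, ∃ u d : ℕ, 1 ≤ d ∧ (d : ℝ) ≤ Real.log X ^ B ∧
      ∀ i < l, u + i * d ∈ T a ∧ X < u + i * d ∧ u + i * d ≤ 2 * X := by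
  have h := Pool.Agent.Y677.KP.lin_p a 1 ha isCoprime_one_right (fun h => one_ne_zero h.2)
    (fun p hp => by
      by_cases h1 : p ∣ a + 1
      · -- then the value at `p - 1` is `1 - a` modulo `p`
        have hodd : p ≠ 2 := by
          rintro rfl
          have h2 : Even (a + 1) := even_iff_two_dvd.2 h1
          rw [Nat.even_add_one] at h2
          exact h2 he
        refine ⟨2, fun h2 => ?_, fun h2 => ?_⟩
        · exact hodd ((Nat.prime_dvd_prime_iff_eq hp Nat.prime_two).1 h2)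
        · have h3 : p ∣ a * 2 + 1 := by
            have h4 : (p : ℤ) ∣ ((a * 2 + 1 : ℕ) : ℤ) := by
              push_cast
              exact_mod_cast h2
            exact Int.natCast_dvd_natCast.1 h4
          have h4 : p ∣ (2 * (a + 1)) - (a * 2 + 1) := Nat.dvd_sub (h1.mul_left 2) h3
          have h5 : (2 * (a + 1)) - (a * 2 + 1) = 1 := by omega
          rw [h5] at h4
          exact hp.one_lt.ne' (Nat.dvd_one.1 h4)
      · refine ⟨1, fun h2 => hp.one_lt.ne' (Nat.dvd_one.1 h2), fun h2 => h1 ?_⟩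
        have h4 : (p : ℤ) ∣ ((a + 1 : ℕ) : ℤ) := by
          push_cast
          simpa using h2
        exact Int.natCast_dvd_natCast.1 h4)
    (fun m => a * m + 1) (fun m _ => by push_cast; ring)
    (fun s => {n | (∀ p : ℕ, p.Prime → p ∣ n → (n : ℝ) ^ (1 / (s : ℝ)) < (p : ℝ)) ∧
      ∀ p : ℕ, p.Prime → p ∣ a * n + 1 → (n : ℝ) ^ (1 / (s : ℝ)) < (p : ℝ)}) (T a)
    (fun m hm => ⟨fun p hp hd => Pool.Agent.Y677.KP.rough_prime 5 m p (by norm_num) hm.1 hp hd,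
      fun p hp hd => by exact_mod_cast hm.2.1 p hp hd⟩)
    (fun s _ m hm => hm)
    (fun m hm _ h2 h3 => ⟨hm, fun q hq hd => by exact_mod_cast h2 q hq hd, h3⟩)
  refine ⟨fun p hp hp2 => ⟨hp, fun q hq hd => ?_, by rw [Nat.primeFactorsList_prime hp2]; simp⟩,
    h.1, h.2.1⟩
  have h2 := Pool.Agent.Y677.KP.rough_val 5 p _ q (by norm_num) hp.two_le hp2 (by nlinarith) hq hd
  exact_mod_cast h2

/-- **Narrow progressions of primes `n` with all `a_i n + 1` prime.** -/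
theorem result :
    (∀ (s : ℕ) (a : Fin s → ℕ), (∀ i, 0 < a i) → Function.Injective a →
      (∀ p : ℕ, p.Prime → ∃ n : ℕ, 1 ≤ n ∧ ¬ p ∣ n * ∏ i, (a i * n + 1)) →
      ∀ θ : ℝ, 0 < θ → θ ≤ 1 → ∃ r₀ : ℕ, 2 ≤ r₀ ∧ ∀ r : ℕ, r₀ ≤ r →
        (∀ n : ℕ, n.Prime → (∀ i, (a i * n + 1).Prime) → n ∈ R a r) ∧
        (∃ κ : ℝ, 0 < κ ∧ ∀ᶠ X : ℕ in atTop, κ * X / Real.log X ^ (s + 1) ≤
            N (P a r) X (2 * X)) ∧
        (∀ l : ℕ, 2 ≤ l → ∀ ε : ℝ, 0 < ε → ∃ B : ℕ, ∀ᶠ X : ℕ in atTop, ∀ Y : ℕ,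
          (X : ℝ) ^ θ ≤ Y → Y ≤ X → ∀ A : Set ℕ, A ⊆ R a r →
            (N (Outside A l (Real.log X ^ B) X (X + Y)) X (X + Y) : ℝ) ≤
              ε * Y / Real.log X ^ (s + 1)) ∧
        ∀ l : ℕ, ∃ B : ℕ, ∀ᶠ X : ℕ in atTop, ∃ u d : ℕ, 1 ≤ d ∧ (d : ℝ) ≤ Real.log X ^ B ∧
          ∀ i < l, u + i * d ∈ P a r ∧ X < u + i * d ∧ u + i * d ≤ 2 * X) ∧
    ∀ a : ℕ, 0 < a → Even a →
      (∀ p : ℕ, p.Prime → (a * p + 1).Prime → p ∈ T a) ∧
      (∃ κ : ℝ, 0 < κ ∧ ∀ᶠ X : ℕ in atTop, κ * X / Real.log X ^ 2 ≤ N (T a) X (2 * X)) ∧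
      ∀ l : ℕ, ∃ B : ℕ, ∀ᶠ X : ℕ in atTop, ∃ u d : ℕ, 1 ≤ d ∧ (d : ℝ) ≤ Real.log X ^ B ∧
        ∀ i < l, u + i * d ∈ T a ∧ X < u + i * d ∧ u + i * d ≤ 2 * X :=
  ⟨fun s a ha hinj hadm θ hθ hθ1 => many s a ha hinj hadm θ hθ hθ1,
    fun a ha he => single a ha he⟩

end Pool.Agent.Results.MP_bca3e5_nt.NarrowProgressions
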