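import Pool.Agent.TH977.PW.Inst

set_option autoImplicit false

/-!
# Regular neighbourhoods of the primes `n` with all `a_i n + 1` prime

Let `R a r` be the set of the `n` for which all prime factors of `n` and of all `a_i n + 1` are larger
than `n ^ (1 / r)`; it contains all primes `n` for which all `a_i n + 1` are prime. For an ARBITRARY
subset `A` of `R a r`, in every short interval all but a small proportion of the elements of `A` are
regular points of `A`.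
-/

namespace Pool.Agent.Results.MP_bca3e5_nt.RegularPoints

open Finset Filter
open Pool.Agent.TH977.PW (N Irregular)

/-- All prime factors of `n` and of all `a i * n + 1` are larger than `n ^ (1 / r)`. -/
def R {s : ℕ} (a : Fin s → ℕ) (r : ℕ) : Set ℕ :=
  {n | (∀ p : ℕ, p.Prime → p ∣ n → (n : ℝ) ^ (1 / (r : ℝ)) < (p : ℝ)) ∧
    ∀ i, ∀ p : ℕ, p.Prime → p ∣ a i * n + 1 → (n : ℝ) ^ (1 / (r : ℝ)) < (p : ℝ)}

/-- **Regular neighbourhoods of the primes `n` with all `a_i n + 1` prime.** -/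
theorem result (s : ℕ) (a : Fin s → ℕ) (ha : ∀ i, 0 < a i) (hinj : Function.Injective a)
    (hadm : ∀ p : ℕ, p.Prime → ∃ n : ℕ, 1 ≤ n ∧ ¬ p ∣ n * ∏ i, (a i * n + 1))
    (θ : ℝ) (hθ : 0 < θ) (hθ1 : θ ≤ 1) :
    ∃ r₀ : ℕ, 2 ≤ r₀ ∧ ∀ r : ℕ, r₀ ≤ r →
      (∀ n : ℕ, n.Prime → (∀ i, (a i * n + 1).Prime) → n ∈ R a r) ∧
      (∃ κ : ℝ, 0 < κ ∧ ∀ᶠ X : ℕ in atTop, κ * X / Real.log X ^ (s + 1) ≤
          N {n | n ∈ R a r ∧ n.Prime ∧ ∀ i, (a i * n + 1).primeFactorsList.length ≤ r} X (2 * X)) ∧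
      ∀ ε : ℝ, 0 < ε → ∃ c : ℝ, 0 < c ∧ ∀ δ : ℝ, 0 < δ → ∃ B : ℕ,
        ∀ᶠ X : ℕ in atTop, ∀ Y : ℕ, (X : ℝ) ^ θ ≤ Y → 2 * Y ≤ X → ∀ A : Set ℕ, A ⊆ R a r →
          (N (Irregular A (s + 1) c δ B X Y) X (X + Y) : ℝ) ≤ ε * Y / Real.log X ^ (s + 1) := by
  have hcast : ∀ (i : Fin s) (m : ℕ), (a i : ℤ) * (m : ℤ) + 1 = ((a i * m + 1 : ℕ) : ℤ) := by
    intro i m
    push_cast
    ring
  obtain ⟨r0, hr0, h⟩ := Pool.Agent.TH977.PW.final_lin_prime a (fun _ => 1) ha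
    (fun i => isCoprime_one_right) (fun i j hij _ => hinj hij)
    (fun i hi => one_ne_zero hi.2)
    (fun p hp => by
      obtain ⟨n, -, hn⟩ := hadm p hp
      refine ⟨n, fun hd => hn (hd.mul_right _), fun i hi => hn ?_⟩
      rw [hcast, Int.natCast_dvd_natCast] at hi
      exact (hi.trans (dvd_prod_of_mem (fun i => a i * n + 1) (mem_univ i))).mul_left _)
    (fun r => R a r)
    (fun r => {n | n ∈ R a r ∧ n.Prime ∧ ∀ i, (a i * n + 1).primeFactorsList.length ≤ r}) (s + 1)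
    (by rw [Fintype.card_fin])
    (fun r m _ hm => ⟨hm.1, fun i p hp hd => hm.2 i p hp (by
      rw [hcast, Int.natCast_dvd_natCast] at hd
      exact hd)⟩)
    (fun r m h2r hm h1 h2 => ⟨⟨fun p hp hd => Pool.Agent.TH977.PW.rpow_lt_dvd r m p h2r hm hp hd,
      fun i p hp hd => h1 i p hp (by
        rw [hcast, Int.natCast_dvd_natCast]
        exact hd)⟩, hm, fun i => by
        have := h2 i
        rw [hcast, Int.natAbs_natCast] at this
        exact this⟩) θ hθ hθ1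
  refine ⟨r0, hr0, fun r hr => ⟨?_, (h r hr).1, (h r hr).2⟩⟩
  intro n hn hp
  have h2r : 2 ≤ r := hr0.trans hr
  refine ⟨fun p hp' hd => Pool.Agent.TH977.PW.rpow_lt_dvd r n p h2r hn hp' hd, ?_⟩
  intro i q hq hd
  rw [(Nat.prime_dvd_prime_iff_eq hq (hp i)).1 hd]
  refine Pool.Agent.TH977.PW.rpow_lt_of_le r n _ h2r hn.two_le ?_
  have := ha i
  nlinarith

end Pool.Agent.Results.MP_bca3e5_nt.RegularPoints
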