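import Pool.Agent.W182.PW.Lin

set_option autoImplicit false

/-!
# Primes `n` with all `a_i n + 1` almost prime in all windows around a positive proportion of the
integers

There are `r` and `c₁, c₂, K > 0` such that a positive proportion of all integers `n` is regular:
every interval `(u, v]` with `u ≤ n ≤ v` and `K log ^ (s + 1) n ≤ v - u ≤ n` contains between
`c₁ (v - u) / log ^ (s + 1) n` and `c₂ (v - u) / log ^ (s + 1) n` primes `p` for which every `a_i p + 1`
has at most `r` prime factors, all larger than `n ^ (1 / r)`.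
-/

namespace Pool.Agent.Results.MP_bca3e5_nt.RegularWindows

open Finset Filter

/-- `p` is prime and every `a i * p + 1` has at most `r` prime factors (with multiplicity), all of
them larger than `z`. -/
def AlmostTuple {s : ℕ} (a : Fin s → ℕ) (r : ℕ) (z : ℝ) (p : ℕ) : Prop :=
  p.Prime ∧ ∀ i, (a i * p + 1).primeFactorsList.length ≤ r ∧
    ∀ q : ℕ, q.Prime → q ∣ a i * p + 1 → z < (q : ℝ)

open Classical in
/-- `n` is regular. -/
def Regular {s : ℕ} (a : Fin s → ℕ) (r : ℕ) (c₁ c₂ K : ℝ) (n : ℕ) : Prop :=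
  ∀ u v : ℕ, u ≤ n → n ≤ v → K * Real.log n ^ (s + 1) ≤ (v : ℝ) - u → (v : ℝ) - u ≤ n →
    c₁ * ((v : ℝ) - u) / Real.log n ^ (s + 1) ≤
      (((Finset.Ioc u v).filter (fun p => AlmostTuple a r ((n : ℝ) ^ (1 / (r : ℝ))) p)).card : ℝ) ∧
    (((Finset.Ioc u v).filter (fun p => AlmostTuple a r ((n : ℝ) ^ (1 / (r : ℝ))) p)).card : ℝ) ≤
      c₂ * ((v : ℝ) - u) / Real.log n ^ (s + 1)

open Pool.Agent.W182.PW

lemma eval_eq (a p : ℕ) : ((lin a 1).eval (p : ℤ)) = ((a * p + 1 : ℕ) : ℤ) := by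
  rw [lin_eval]
  push_cast
  ring

lemma prop_eq {s : ℕ} (a : Fin s → ℕ) : PrimeAlmost (fun i => lin (a i) 1) = AlmostTuple a := by
  funext r z p
  apply propext
  unfold PrimeAlmost AlmostTuple
  simp only [eval_eq, Int.natAbs_natCast, Int.natCast_dvd_natCast]

lemma reg_eq {s : ℕ} (a : Fin s → ℕ) : RegularP (fun i => lin (a i) 1) (s + 1) = Regular a := by
  funext r c₁ c₂ K n
  unfold RegularP Regular
  rw [prop_eq]

open Classical in
/-- **Primes `n` with all `a_i n + 1` almost prime: regular windows.** For some `r` and positive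
`c₁, c₂, K, κ` and all large `x` at least `κ x` of the integers `n` in `[1, x]` are regular. -/
theorem result (s : ℕ) (a : Fin s → ℕ) (ha : ∀ i, 0 < a i) (hinj : Function.Injective a)
    (hadm : ∀ p : ℕ, p.Prime → ∃ n : ℕ, 1 ≤ n ∧ ¬ p ∣ n * ∏ i, (a i * n + 1)) :
    ∃ (r : ℕ) (c₁ c₂ K κ : ℝ), 0 < c₁ ∧ 0 < c₂ ∧ 0 < K ∧ 0 < κ ∧
    ∀ᶠ x : ℕ in atTop,
      κ * x ≤ (((Finset.Icc 1 x).filter (fun n => Regular a r c₁ c₂ K n)).card : ℝ) := by
  have h := main_lin a (fun _ => 1) ha (fun i => isCoprime_one_right)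
    (fun i j hij _ => hinj hij) (fun i hi => one_ne_zero hi.2)
    (by
      intro p hp
      obtain ⟨n, -, hn⟩ := hadm p hp
      refine ⟨n, fun hd => hn (hd.mul_right _), fun i hi => hn ?_⟩
      rw [← lin_eval, eval_eq, Int.natCast_dvd_natCast] at hi
      exact (hi.trans (dvd_prod_of_mem (fun i => a i * n + 1) (mem_univ i))).mul_left _)
  rw [reg_eq] at h
  exact h

end Pool.Agent.Results.MP_bca3e5_nt.RegularWindows
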